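import Pool.Agent.W_MP_d6e406_an.Sys

set_option autoImplicit false

namespace Pool.Agent.W_MP_d6e406_an

variable {X : Type*} [NormedAddCommGroup X] [NormedSpace ℝ X]

/-- signs -/
noncomputable def sg (b : Bool) : ℝ := if b then 1 else -1

theorem sg_mul_self (b : Bool) : sg b * sg b = 1 := by cases b <;> simp [sg]

theorem sg_not (b : Bool) : sg (!b) = - sg b := by cases b <;> simp [sg]

/-- average of a family indexed by a cube -/
noncomputable def av {n : ℕ} (b : (Fin n → Bool) → WeakDual ℝ X) : WeakDual ℝ X :=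
  ((2 : ℝ) ^ n)⁻¹ • ∑ v, b v

theorem av_apply {n : ℕ} (b : (Fin n → Bool) → WeakDual ℝ X) (x : X) :
    av b x = ((2 : ℝ) ^ n)⁻¹ * ∑ v, b v x := by
  have h : ∀ (s : Finset (Fin n → Bool)), (∑ v ∈ s, b v) x = ∑ v ∈ s, b v x := by
    intro s
    classical
    induction s using Finset.induction_on with
    | empty => simp only [Finset.sum_empty]; rfl
    | insert a s ha ih => rw [Finset.sum_insert ha, Finset.sum_insert ha, ← ih]; rfl
  show ((2 : ℝ) ^ n)⁻¹ * (∑ v, b v) x = _
  rw [h]

theorem sum_snoc {M : Type*} [AddCommMonoid M] {n : ℕ} (b : (Fin (n + 1) → Bool) → M) :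
    ∑ v, b v = ∑ u : Fin n → Bool, (b (Fin.snoc u true) + b (Fin.snoc u false)) := by
  rw [← (Fin.snocEquiv (fun _ : Fin (n + 1) => Bool)).sum_comp, Fintype.sum_prod_type]
  simp only [Fintype.sum_bool]
  rw [Finset.sum_add_distrib]
  rfl

theorem av_succ {n : ℕ} (b : (Fin (n + 1) → Bool) → WeakDual ℝ X) :
    av b = av (fun u : Fin n → Bool =>
      (1 / 2 : ℝ) • b (Fin.snoc u true) + (1 / 2 : ℝ) • b (Fin.snoc u false)) := by
  unfold av
  rw [sum_snoc]
  simp only [← smul_add]
  rw [← Finset.smul_sum, smul_smul]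
  congr 1
  rw [pow_succ]
  field_simp

/-- pushing averages down the tree -/
theorem push {j : ℕ} (Kj : (Fin j → Bool) → Set (WeakDual ℝ X)) (hc : ∀ u, Convex ℝ (Kj u)) :
    ∀ (m : ℕ) (h : j ≤ m) (c : (Fin m → Bool) → WeakDual ℝ X),
      (∀ v, c v ∈ Kj (fun i => v (Fin.castLE h i))) →
      ∃ c' : (Fin j → Bool) → WeakDual ℝ X, (∀ u, c' u ∈ Kj u) ∧ av c' = av c := by
  intro m h
  induction m, h using Nat.le_induction with
  | base =>
    intro c hcv
    exact ⟨c, fun u => hcv u, rfl⟩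
  | succ m h ih =>
    intro c hcv
    have h1 : ∀ (u : Fin m → Bool) (e : Bool),
        (fun i => (Fin.snoc u e : Fin (m + 1) → Bool) (Fin.castLE (h.trans m.le_succ) i)) =
          (fun i => u (Fin.castLE h i)) := by
      intro u e
      funext i
      have : (Fin.castLE (h.trans m.le_succ) i : Fin (m + 1)) = Fin.castSucc (Fin.castLE h i) := by
        ext; simp
      rw [this, Fin.snoc_castSucc]
    obtain ⟨c', h2, h3⟩ := ih (fun u : Fin m → Bool =>
      (1 / 2 : ℝ) • c (Fin.snoc u true) + (1 / 2 : ℝ) • c (Fin.snoc u false)) (by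
        intro v
        refine hc _ ?_ ?_ (by norm_num) (by norm_num) (by norm_num)
        · have := hcv (Fin.snoc v true)
          rwa [h1] at this
        · have := hcv (Fin.snoc v false)
          rwa [h1] at this)
    exact ⟨c', h2, by rw [h3, ← av_succ]⟩

/-- flipping one coordinate -/
def flp {m : ℕ} (j : Fin m) (v : Fin m → Bool) : Fin m → Bool := Function.update v j (!(v j))

theorem flp_invol {m : ℕ} (j : Fin m) : Function.Involutive (flp j) := by
  intro v
  simp [flp]

theorem sum_flp {m : ℕ} (j : Fin m) (G : (Fin m → Bool) → ℝ) : ∑ v, G (flp j v) = ∑ v, G v :=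
  Equiv.sum_comp (Function.Involutive.toPerm (flp j) (flp_invol j)) G

theorem flp_self {m : ℕ} (j : Fin m) (v : Fin m → Bool) : flp j v j = !(v j) := by
  simp [flp]

theorem flp_ne {m : ℕ} (j k : Fin m) (h : k ≠ j) (v : Fin m → Bool) : flp j v k = v k := by
  simp [flp, h]

theorem sum_sg {m : ℕ} (j : Fin m) : ∑ v : Fin m → Bool, sg (v j) = 0 := by
  have h := sum_flp j (fun v => sg (v j))
  simp only [flp_self, sg_not, Finset.sum_neg_distrib] at h
  linarith

theorem sum_sg_mul {m : ℕ} (j k : Fin m) (hjk : k ≠ j) :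
    ∑ v : Fin m → Bool, sg (v j) * sg (v k) = 0 := by
  have h := sum_flp j (fun v => sg (v j) * sg (v k))
  simp only [flp_self, flp_ne j k hjk, sg_not, neg_mul, Finset.sum_neg_distrib] at h
  linarith

theorem sum_sg_mul_self {m : ℕ} (j : Fin m) :
    ∑ v : Fin m → Bool, sg (v j) * sg (v j) = 2 ^ m := by
  simp [sg_mul_self]

theorem bessel {m : ℕ} (h : (Fin m → Bool) → ℝ) (B : ℝ) (hB : ∀ v, |h v| ≤ B) :
    ∑ j : Fin m, (((2 : ℝ) ^ m)⁻¹ * ∑ v, sg (v j) * h v) ^ 2 ≤ B ^ 2 := by
  set c : Fin m → ℝ := fun j => ((2 : ℝ) ^ m)⁻¹ * ∑ v, sg (v j) * h v with hc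
  have h2 : (0 : ℝ) < 2 ^ m := by positivity
  have hcj : ∀ j, ∑ v, sg (v j) * h v = 2 ^ m * c j := by
    intro j
    simp only [hc]
    field_simp
  have h0 : 0 ≤ ∑ v : Fin m → Bool, (h v - ∑ j, c j * sg (v j)) ^ 2 :=
    Finset.sum_nonneg fun v _ => sq_nonneg _
  have h3 : ∑ v : Fin m → Bool, (h v - ∑ j, c j * sg (v j)) ^ 2 =
      ∑ v, h v ^ 2 - 2 * (∑ j, c j * (∑ v, sg (v j) * h v)) +
        ∑ j, ∑ k, c j * c k * (∑ v : Fin m → Bool, sg (v j) * sg (v k)) := by
    have e1 : ∀ v : Fin m → Bool, (h v - ∑ j, c j * sg (v j)) ^ 2 =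
        h v ^ 2 - 2 * (∑ j, c j * (sg (v j) * h v)) +
          ∑ j, ∑ k, c j * c k * (sg (v j) * sg (v k)) := by
      intro v
      have e2 : (∑ j, c j * sg (v j)) ^ 2 = ∑ j, ∑ k, c j * c k * (sg (v j) * sg (v k)) := by
        rw [pow_two, Finset.sum_mul_sum]
        refine Finset.sum_congr rfl fun j _ => Finset.sum_congr rfl fun k _ => by ring
      have e3 : (∑ j, c j * (sg (v j) * h v)) = (∑ j, c j * sg (v j)) * h v := by
        rw [Finset.sum_mul]
        refine Finset.sum_congr rfl fun j _ => by ring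
      rw [← e2, e3]
      ring
    simp only [e1]
    rw [Finset.sum_add_distrib, Finset.sum_sub_distrib, ← Finset.mul_sum]
    congr 1
    · congr 2
      rw [Finset.sum_comm]
      refine Finset.sum_congr rfl fun j _ => by rw [Finset.mul_sum]
    · rw [Finset.sum_comm]
      refine Finset.sum_congr rfl fun j _ => ?_
      rw [Finset.sum_comm]
      refine Finset.sum_congr rfl fun k _ => by rw [Finset.mul_sum]
  have h4 : ∑ j, ∑ k, c j * c k * (∑ v : Fin m → Bool, sg (v j) * sg (v k)) =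
      2 ^ m * ∑ j, c j ^ 2 := by
    rw [Finset.mul_sum]
    refine Finset.sum_congr rfl fun j _ => ?_
    rw [Finset.sum_eq_single j]
    · rw [sum_sg_mul_self]; ring
    · intro k _ hk
      rw [sum_sg_mul j k hk, mul_zero]
    · simp
  have h5 : ∑ j, c j * (∑ v, sg (v j) * h v) = 2 ^ m * ∑ j, c j ^ 2 := by
    rw [Finset.mul_sum]
    refine Finset.sum_congr rfl fun j _ => ?_
    rw [hcj]; ring
  have h6 : ∑ v : Fin m → Bool, h v ^ 2 ≤ 2 ^ m * B ^ 2 := by
    calc ∑ v : Fin m → Bool, h v ^ 2 ≤ ∑ v : Fin m → Bool, B ^ 2 := by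
          refine Finset.sum_le_sum fun v _ => ?_
          exact sq_le_sq' (by linarith [neg_abs_le (h v), hB v]) ((le_abs_self _).trans (hB v))
      _ = 2 ^ m * B ^ 2 := by simp
  rw [h3, h4, h5] at h0
  have h7 : 2 ^ m * ∑ j, c j ^ 2 ≤ 2 ^ m * B ^ 2 := by linarith
  exact le_of_mul_le_mul_left h7 h2

theorem sum_update {m : ℕ} (j : Fin m) (G : (Fin m → Bool) → ℝ) :
    ∑ v, G (Function.update v j true) = ∑ v, (1 + sg (v j)) * G v := by
  have h := sum_flp j (fun v => (1 + sg (v j)) * G v)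
  have h1 : ∑ v : Fin m → Bool, ((1 + sg (v j)) * G v + (1 + sg (flp j v j)) * G (flp j v)) =
      ∑ v, 2 * G (Function.update v j true) := by
    refine Finset.sum_congr rfl fun v _ => ?_
    rcases hv : v j with _ | _
    · have : flp j v = Function.update v j true := by simp [flp, hv]
      rw [flp_self, hv, this]
      simp [sg]
      norm_num
    · have : Function.update v j true = v := by rw [← hv]; simp
      rw [flp_self, hv, this]
      simp [sg]
      norm_num
  rw [Finset.sum_add_distrib, h, ← Finset.mul_sum] at h1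
  linarith

end Pool.Agent.W_MP_d6e406_an
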