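import Pool.Agent.W_MP_d6e406_an.Scheme

set_option autoImplicit false

namespace Pool.Agent.W_MP_d6e406_an

variable {X : Type*} [NormedAddCommGroup X] [NormedSpace ℝ X]

/-- the images of the unit vectors -/
noncomputable def xs (T : lp (fun _ : ℕ => ℝ) 1 →L[ℝ] X) (n : ℕ) : X :=
  T (lp.single 1 n (1 : ℝ))

theorem norm_xs (T : lp (fun _ : ℕ => ℝ) 1 →L[ℝ] X) (n : ℕ) : ‖xs T n‖ ≤ ‖T‖ := by
  unfold xs
  refine (T.le_opNorm _).trans ?_
  rw [lp.norm_single (by norm_num)]
  simp

theorem sum_abs_le (z : lp (fun _ : ℕ => ℝ) 1) (S : Finset ℕ) : ∑ n ∈ S, |z n| ≤ ‖z‖ := by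
  have h := lp.sum_rpow_le_norm_rpow (p := 1) (by simp) z S
  simpa using h

theorem hahn (T : lp (fun _ : ℕ => ℝ) 1 →L[ℝ] X) (c : ℝ) (hc : 0 < c)
    (hT : ∀ y, c * ‖y‖ ≤ ‖T y‖) (S : Finset ℕ) (σ : ℕ → ℝ) (hσ : ∀ n, |σ n| ≤ 1) :
    ∃ g : X →L[ℝ] ℝ, ‖g‖ ≤ 1 / c ∧ ∀ n ∈ S, g (xs T n) = σ n := by
  classical
  let L : lp (fun _ : ℕ => ℝ) 1 →ₗ[ℝ] ℝ :=
    { toFun := fun z => ∑ n ∈ S, σ n * z n
      map_add' := by
        intro z w
        rw [← Finset.sum_add_distrib]
        refine Finset.sum_congr rfl fun n _ => ?_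
        rw [lp.coeFn_add, Pi.add_apply]
        ring
      map_smul' := by
        intro r z
        rw [RingHom.id_apply, smul_eq_mul, Finset.mul_sum]
        refine Finset.sum_congr rfl fun n _ => ?_
        rw [lp.coeFn_smul, Pi.smul_apply, smul_eq_mul]
        ring }
  have hL : ∀ z, |L z| ≤ ‖z‖ := by
    intro z
    refine le_trans ?_ (sum_abs_le z S)
    refine (Finset.abs_sum_le_sum_abs _ _).trans (Finset.sum_le_sum fun n _ => ?_)
    rw [abs_mul]
    calc |σ n| * |z n| ≤ 1 * |z n| := by gcongr; exact hσ n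
      _ = |z n| := one_mul _
  have hinj : Function.Injective (T : lp (fun _ : ℕ => ℝ) 1 →ₗ[ℝ] X) := by
    rw [← LinearMap.ker_eq_bot, LinearMap.ker_eq_bot']
    intro z hz
    have h1 := hT z
    have h2 : T z = 0 := hz
    rw [h2, norm_zero] at h1
    have h3 : ‖z‖ ≤ 0 := by
      by_contra hcon
      push Not at hcon
      have := mul_pos hc hcon
      linarith
    exact norm_le_zero_iff.mp h3
  let e := LinearEquiv.ofInjective (T : lp (fun _ : ℕ => ℝ) 1 →ₗ[ℝ] X) hinj
  have he : ∀ y, T (e.symm y) = (y : X) := by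
    intro y
    have := LinearEquiv.apply_symm_apply e y
    exact congrArg Subtype.val this
  have hbound : ∀ y, ‖(L ∘ₗ e.symm.toLinearMap) y‖ ≤ (1 / c) * ‖y‖ := by
    intro y
    have h1 := hL (e.symm y)
    have h2 := hT (e.symm y)
    rw [he] at h2
    have h3 : ‖e.symm y‖ ≤ (1 / c) * ‖y‖ := by
      rw [one_div, le_inv_mul_iff₀ hc]
      exact h2
    exact h1.trans h3
  obtain ⟨g, hg1, hg2⟩ := exists_extension_norm_eq
    (LinearMap.range (T : lp (fun _ : ℕ => ℝ) 1 →ₗ[ℝ] X))
    (LinearMap.mkContinuous (L ∘ₗ e.symm.toLinearMap) (1 / c) hbound)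
  refine ⟨g, ?_, ?_⟩
  · rw [hg2]
    exact LinearMap.mkContinuous_norm_le _ (by positivity) _
  · intro n hn
    have h1 := hg1 (e (lp.single 1 n (1 : ℝ)))
    have h2 : ((e (lp.single 1 n (1 : ℝ)) : LinearMap.range
      (T : lp (fun _ : ℕ => ℝ) 1 →ₗ[ℝ] X)) : X) = xs T n := rfl
    rw [h2] at h1
    rw [h1]
    show L (e.symm (e (lp.single 1 n (1 : ℝ)))) = σ n
    rw [LinearEquiv.symm_apply_apply]
    show ∑ m ∈ S, σ m * (lp.single 1 n (1 : ℝ) : lp (fun _ : ℕ => ℝ) 1) m = σ n
    rw [Finset.sum_eq_single n]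
    · rw [lp.single_apply_self, mul_one]
    · intro m _ hm
      rw [lp.single_apply_ne _ _ _ hm, mul_zero]
    · intro h; exact absurd hn h

/-- the base system -/
def K0 (T : lp (fun _ : ℕ => ℝ) 1 →L[ℝ] X) (c : ℝ) (s : List Bool) : Set (WeakDual ℝ X) :=
  {f | ‖WeakDual.toStrongDual f‖ ≤ 1 / c ∧ f (xs T 0) = 1 ∧
    ∀ (k : ℕ) (e : Bool), s[k]? = some e → f (xs T (k + 1)) = sg e}

theorem K0_sys (T : lp (fun _ : ℕ => ℝ) 1 →L[ℝ] X) (c : ℝ) (hc : 0 < c)
    (hT : ∀ y, c * ‖y‖ ≤ ‖T y‖) : IsSys (K0 T c) := by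
  refine ⟨?_, ?_, ?_, ?_⟩
  · intro s
    obtain ⟨g, hg1, hg2⟩ := hahn T c hc hT (Finset.range (s.length + 1))
      (fun n => match n with
        | 0 => 1
        | (k + 1) => match s[k]? with
          | some e => sg e
          | none => 0) (by
        intro n
        rcases n with _ | k
        · simp
        · rcases h : s[k]? with _ | e
          · simp [h]
          · simp only [h]
            cases e <;> simp [sg])
    refine ⟨g, ?_, ?_, ?_⟩
    · exact hg1
    · exact hg2 0 (by simp)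
    · intro k e hke
      have hk : k < s.length := by
        by_contra hcon
        push Not at hcon
        rw [List.getElem?_eq_none hcon] at hke
        exact absurd hke (by simp)
      have := hg2 (k + 1) (by simp; omega)
      simp only [hke] at this
      exact this
  · intro s
    have h1 : IsCompact {f : WeakDual ℝ X | ‖WeakDual.toStrongDual f‖ ≤ 1 / c} := by
      have := WeakDual.isCompact_closedBall (0 : StrongDual ℝ X) (1 / c)
      convert this using 1
      ext f
      simp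
    have h2 : IsClosed {f : WeakDual ℝ X | f (xs T 0) = 1} :=
      isClosed_eq (WeakDual.eval_continuous _) continuous_const
    have h3 : IsClosed {f : WeakDual ℝ X | ∀ (k : ℕ) (e : Bool), s[k]? = some e →
        f (xs T (k + 1)) = sg e} := by
      simp only [Set.ofPred_forall]
      refine isClosed_iInter fun k => isClosed_iInter fun e => isClosed_iInter fun _ => ?_
      exact isClosed_eq (WeakDual.eval_continuous _) continuous_const
    exact h1.inter_right (h2.inter h3)
  · intro s f hf g hg a b ha hb hab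
    refine ⟨?_, ?_, ?_⟩
    · have h1 : WeakDual.toStrongDual (a • f + b • g) =
          a • WeakDual.toStrongDual f + b • WeakDual.toStrongDual g := rfl
      rw [h1]
      calc ‖a • WeakDual.toStrongDual f + b • WeakDual.toStrongDual g‖
          ≤ ‖a • WeakDual.toStrongDual f‖ + ‖b • WeakDual.toStrongDual g‖ := norm_add_le _ _
        _ = a * ‖WeakDual.toStrongDual f‖ + b * ‖WeakDual.toStrongDual g‖ := by
            rw [norm_smul, norm_smul, Real.norm_of_nonneg ha, Real.norm_of_nonneg hb]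
        _ ≤ a * (1 / c) + b * (1 / c) := by
            gcongr
            · exact hf.1
            · exact hg.1
        _ = 1 / c := by rw [← add_mul, hab, one_mul]
    · have : (a • f + b • g) (xs T 0) = a * f (xs T 0) + b * g (xs T 0) := rfl
      rw [this, hf.2.1, hg.2.1, mul_one, mul_one, hab]
    · intro k e hke
      have : (a • f + b • g) (xs T (k + 1)) = a * f (xs T (k + 1)) + b * g (xs T (k + 1)) := rfl
      rw [this, hf.2.2 k e hke, hg.2.2 k e hke, ← add_mul, hab, one_mul]
  · intro s t hst f hf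
    exact ⟨hf.1, hf.2.1, fun k e hke => hf.2.2 k e (prefix_getElem? hst k e hke)⟩

end Pool.Agent.W_MP_d6e406_an
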