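import Pool.Agent.W_MP_d6e406_an.Mart

set_option autoImplicit false

open Filter Topology

namespace Pool.Agent.W_MP_d6e406_an

variable {X : Type*} [NormedAddCommGroup X] [NormedSpace ℝ X]

/-- square summability along the martingale, hence weak nullity -/
theorem rr_weakly_null (b : (m : ℕ) → (Fin m → Bool) → WeakDual ℝ X)
    (hb : ∀ m (u : Fin m → Bool), b m u = dn (b (m + 1)) u) (C : ℝ)
    (hC : ∀ m v, ‖WeakDual.toStrongDual (b m v)‖ ≤ C) (φ : (X →L[ℝ] ℝ) →L[ℝ] ℝ) :
    Tendsto (fun j : ℕ => φ (WeakDual.toStrongDual (rr (b (j + 1)) (Fin.last j)))) atTop (𝓝 0) := by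
  have h1 : ∀ m : ℕ, ∑ j ∈ Finset.range m,
      (φ (WeakDual.toStrongDual (rr (b (j + 1)) (Fin.last j)))) ^ 2 ≤ (‖φ‖ * C) ^ 2 := by
    intro m
    have := bessel (fun v => φ (WeakDual.toStrongDual (b m v))) (‖φ‖ * C) (by
      intro v
      calc |φ (WeakDual.toStrongDual (b m v))| ≤ ‖φ‖ * ‖WeakDual.toStrongDual (b m v)‖ :=
            φ.le_opNorm _
        _ ≤ ‖φ‖ * C := by gcongr; exact hC m v)
    calc ∑ j ∈ Finset.range m,
        (φ (WeakDual.toStrongDual (rr (b (j + 1)) (Fin.last j)))) ^ 2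
        = ∑ j : Fin m, (φ (WeakDual.toStrongDual (rr (b ((j : ℕ) + 1)) (Fin.last j)))) ^ 2 :=
          (Fin.sum_univ_eq_sum_range (fun j =>
            (φ (WeakDual.toStrongDual (rr (b (j + 1)) (Fin.last j)))) ^ 2) m).symm
      _ = ∑ j : Fin m, (((2 : ℝ) ^ m)⁻¹ * ∑ v, sg (v j) *
            φ (WeakDual.toStrongDual (b m v))) ^ 2 := by
          refine Finset.sum_congr rfl fun j _ => ?_
          rw [← toStrongDual_rr, ← rr_const b hb j m j.2]
      _ ≤ (‖φ‖ * C) ^ 2 := this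
  have h2 : Summable (fun j : ℕ =>
      (φ (WeakDual.toStrongDual (rr (b (j + 1)) (Fin.last j)))) ^ 2) :=
    summable_of_sum_range_le (fun j => sq_nonneg _) h1
  have h3 := h2.tendsto_atTop_zero
  have h4 : Tendsto (fun j : ℕ =>
      |φ (WeakDual.toStrongDual (rr (b (j + 1)) (Fin.last j)))|) atTop (𝓝 0) := by
    have h5 := (Real.continuous_sqrt.tendsto 0).comp h3
    rw [Real.sqrt_zero] at h5
    refine h5.congr fun j => ?_
    simp [Real.sqrt_sq_eq_abs]
  exact tendsto_zero_iff_abs_tendsto_zero _ |>.mpr h4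

theorem main_seq (T : lp (fun _ : ℕ => ℝ) 1 →L[ℝ] X) (c : ℝ) (hc : 0 < c)
    (hT : ∀ y, c * ‖y‖ ≤ ‖T y‖) (N : X → ℝ)
    (hN2 : ∀ (r : ℝ) (x : X), N (r • x) = |r| * N x)
    (c1 : ℝ) (hc1 : 0 < c1) (hN3 : ∀ x, c1 * ‖x‖ ≤ N x) :
    ∃ f : X →L[ℝ] ℝ, ∃ g : ℕ → X →L[ℝ] ℝ, ∃ ε : ℝ, 0 < ε ∧
      (∀ x, f x ≤ N x) ∧ (∀ δ : ℝ, 0 < δ → ∃ x, N x ≤ 1 ∧ 1 - δ < f x) ∧
      (∀ n x, g n x ≤ N x) ∧
      (∀ φ : (X →L[ℝ] ℝ) →L[ℝ] ℝ, Tendsto (fun n => φ (g n)) atTop (𝓝 (φ f))) ∧
      ∀ n, ε ≤ ‖g n - f‖ := by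
  classical
  have hN0 : N 0 = 0 := by
    have := hN2 0 0
    simpa using this
  have hNnn : ∀ x, 0 ≤ N x := fun x => le_trans (by positivity) (hN3 x)
  obtain ⟨K, hK, hKle, hmin⟩ := exists_minimal_sys _ (K0_sys T c hc hT)
  -- bound
  set M : ℝ := (1 / c) * (1 / c1) with hMdef
  have hMpos : 0 < M := by positivity
  have hM : ∀ s, ∀ f ∈ K s, ∀ y, N y ≤ 1 → f y ≤ M := by
    intro s f hf y hy
    have h1 : ‖WeakDual.toStrongDual f‖ ≤ 1 / c := (hKle s hf).1
    have h2 : ‖y‖ ≤ 1 / c1 := by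
      rw [le_div_iff₀ hc1]
      have := hN3 y
      linarith
    calc f y ≤ |f y| := le_abs_self _
      _ = ‖(WeakDual.toStrongDual f) y‖ := rfl
      _ ≤ ‖WeakDual.toStrongDual f‖ * ‖y‖ := ContinuousLinearMap.le_opNorm _ _
      _ ≤ (1 / c) * (1 / c1) := by gcongr
  obtain ⟨Θ, k, β, x, hS⟩ := exists_scheme K hK hmin N ⟨0, by rw [hN0]; norm_num⟩ M hM
  obtain ⟨b, hb, hbm⟩ := exists_martingale K hK Θ (fun j => (hS j).2.1)
  have hpre := scheme_prefix Θ (fun j => (hS j).2.1)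
  set a : WeakDual ℝ X := av (b 0) with hadef
  have hba : ∀ m, av (b m) = a := av_mart b hbm
  -- basic values of a
  have ha0 : a (xs T 0) = 1 := by
    rw [hadef, av_apply]
    have : ∀ v, b 0 v (xs T 0) = 1 := fun v => (hKle _ (hb 0 v)).2.1
    simp [this]
  have haM : ∀ y, N y ≤ 1 → a y ≤ M := by
    intro y hy
    rw [hadef, av_apply]
    simpa using hM _ _ (hb 0 _) y hy
  -- rho
  set ρ : ℝ := sSup ((fun y => a y) '' {y | N y ≤ 1}) with hρ
  have hbdd : BddAbove ((fun y => a y) '' {y | N y ≤ 1}) := by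
    refine ⟨M, ?_⟩
    rintro _ ⟨y, hy, rfl⟩
    exact haM y hy
  have hne : ((fun y => a y) '' {y | N y ≤ 1}).Nonempty := ⟨_, 0, by simp [hN0], rfl⟩
  have hle1 : ∀ y, N y ≤ 1 → a y ≤ ρ := fun y hy => le_csSup hbdd ⟨y, hy, rfl⟩
  have hxs0 : 0 < N (xs T 0) := by
    refine lt_of_lt_of_le ?_ (hN3 _)
    have h1 : xs T 0 ≠ 0 := by
      intro h
      rw [h] at ha0
      have : a (0 : X) = 0 := map_zero (WeakDual.toStrongDual a)
      rw [this] at ha0
      exact zero_ne_one ha0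
    exact mul_pos hc1 (norm_pos_iff.mpr h1)
  have hsmul : ∀ (f : WeakDual ℝ X) (t : ℝ) (y : X), f (t • y) = t * f y := fun f t y =>
    (WeakDual.toStrongDual f).map_smul t y
  have hρpos : 0 < ρ := by
    have h1 : N ((1 / N (xs T 0)) • xs T 0) ≤ 1 := by
      rw [hN2, abs_of_pos (by positivity)]
      field_simp
      norm_num
    have h2 := hle1 _ h1
    rw [hsmul, ha0, mul_one] at h2
    have h3 : 0 < 1 / N (xs T 0) := by positivity
    linarith
  -- homogeneity principle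
  have hom : ∀ (f : WeakDual ℝ X) (t : ℝ), (∀ y, N y ≤ 1 → f y ≤ t) → ∀ y, f y ≤ t * N y := by
    intro f t hf y
    by_cases hy : y = 0
    · subst hy
      have : f (0 : X) = 0 := map_zero (WeakDual.toStrongDual f)
      rw [this, hN0, mul_zero]
    · have hNy : 0 < N y := lt_of_lt_of_le (mul_pos hc1 (norm_pos_iff.mpr hy)) (hN3 y)
      have h1 : N ((1 / N y) • y) ≤ 1 := by
        rw [hN2, abs_of_pos (by positivity)]
        field_simp
        norm_num
      have h2 := hf _ h1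
      rw [hsmul] at h2
      rw [one_div, inv_mul_le_iff₀ hNy] at h2
      linarith
  -- the perturbations
  set R : ℕ → WeakDual ℝ X := fun i => rr (b (i + 2)) (Fin.last (i + 1)) with hR
  set η : ℕ → ℝ := fun i => 1 / ((i : ℝ) + 1) with hη
  have hηpos : ∀ i, 0 < η i := fun i => by simp only [hη]; positivity
  have hη1 : ∀ i, η i ≤ 1 := by
    intro i
    simp only [hη]
    rw [div_le_one (by positivity)]
    have : (0 : ℝ) ≤ i := by positivity
    linarith
  have hηlim : Tendsto η atTop (𝓝 0) := tendsto_one_div_add_atTop_nhds_zero_nat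
  have hbz : ∀ i, ∀ v, b (i + 2) v (xs T (k (i + 1) + 1)) = sg (v (Fin.last (i + 1))) := by
    intro i v
    exact (hKle _ (hb (i + 2) v)).2.2 _ _ ((hS (i + 1)).2.2.1 v)
  have hRz : ∀ i, R i (xs T (k (i + 1) + 1)) = 1 := by
    intro i
    simp only [hR]
    rw [rr_apply]
    simp only [hbz, sum_sg_mul_self]
    field_simp
  have haz : ∀ i, a (xs T (k (i + 1) + 1)) = 0 := by
    intro i
    rw [← hba (i + 2), av_apply]
    simp only [hbz, sum_sg, mul_zero]
  have hupper : ∀ i, ∀ y, N y ≤ 1 → a y + R i y ≤ β i := by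
    intro i y hy
    rw [← hba (i + 2)]
    simp only [hR]
    rw [add_rr]
    obtain ⟨c', hc', hav⟩ := push (fun u : Fin (i + 1) → Bool => K (Θ (i + 1) u))
      (fun u => hK.cvx _) (i + 2) (by omega)
      (fun v => b (i + 2) (Function.update v (Fin.last (i + 1)) true)) (by
        intro v
        have h1 := hpre (i + 1) (i + 2) (by omega) (Function.update v (Fin.last (i + 1)) true)
        have h2 : (fun l : Fin (i + 1) => Function.update v (Fin.last (i + 1)) true
            (Fin.castLE (by omega) l)) = (fun l => v (Fin.castLE (by omega) l)) := by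
          funext l
          rw [Function.update_of_ne]
          intro h
          have h3 := congrArg Fin.val h
          have h4 := l.2
          simp only [Fin.val_castLE, Fin.val_last] at h3
          omega
        rw [h2] at h1
        exact hK.mono _ _ h1 (hb _ _))
    rw [← hav]
    exact ((hS i).2.2.2 c' hc').2 y hy
  have hlow : ∀ i, β i - η i < ρ := by
    intro i
    have h1 := ((hS i).2.2.2 (b (i + 1)) (hb (i + 1))).1
    rw [hba (i + 1)] at h1
    exact h1.trans_le (hle1 _ (hS i).1)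
  have hupper2 : ∀ i, ∀ y, N y ≤ 1 → (a + R i) y ≤ ρ + η i := by
    intro i y hy
    have h1 := hupper i y hy
    have h2 : (a + R i) y = a y + R i y := rfl
    have h3 := hlow i
    rw [h2]
    linarith
  set τ : ℝ := ‖T‖ + 1 with hτ
  have hτpos : 0 < τ := by positivity
  refine ⟨(1 / ρ) • WeakDual.toStrongDual a,
    fun i => (1 / (ρ + η i)) • WeakDual.toStrongDual (a + R i),
    1 / ((ρ + 1) * τ), by positivity, ?_, ?_, ?_, ?_, ?_⟩
  · intro y
    have h1 := hom a ρ hle1 y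
    show (1 / ρ) * a y ≤ N y
    rw [one_div, inv_mul_le_iff₀ hρpos]
    exact h1
  · intro ε hε
    obtain ⟨_, ⟨y, hy, rfl⟩, hlt⟩ := exists_lt_of_lt_csSup hne
      (show ρ - ε * ρ < sSup ((fun y => a y) '' {y | N y ≤ 1}) by
        rw [← hρ]
        have := mul_pos hε hρpos
        linarith)
    refine ⟨y, hy, ?_⟩
    show 1 - ε < (1 / ρ) * a y
    rw [one_div, lt_inv_mul_iff₀ hρpos]
    have hlt' : ρ - ε * ρ < a y := hlt
    linarith
  · intro i y
    have h1 := hom _ _ (hupper2 i) y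
    have h2 := hηpos i
    show (1 / (ρ + η i)) * (a + R i) y ≤ N y
    rw [one_div, inv_mul_le_iff₀ (by positivity)]
    exact h1
  · intro φ
    have h1 : Tendsto (fun i => φ (WeakDual.toStrongDual (R i))) atTop (𝓝 0) :=
      (rr_weakly_null b hbm (1 / c) (fun m v => (hKle _ (hb m v)).1) φ).comp
        (tendsto_add_atTop_nat 1)
    have h2 : Tendsto (fun i => 1 / (ρ + η i)) atTop (𝓝 (1 / ρ)) := by
      have h3 : Tendsto (fun i => ρ + η i) atTop (𝓝 (ρ + 0)) := tendsto_const_nhds.add hηlim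
      rw [add_zero] at h3
      simp only [one_div]
      exact h3.inv₀ hρpos.ne'
    have h4 : Tendsto (fun i => (1 / (ρ + η i)) *
        (φ (WeakDual.toStrongDual a) + φ (WeakDual.toStrongDual (R i)))) atTop
        (𝓝 ((1 / ρ) * (φ (WeakDual.toStrongDual a) + 0))) :=
      h2.mul (tendsto_const_nhds.add h1)
    rw [add_zero] at h4
    have h5 : φ ((1 / ρ) • WeakDual.toStrongDual a) = (1 / ρ) * φ (WeakDual.toStrongDual a) := by
      rw [map_smul, smul_eq_mul]
    rw [h5]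
    refine h4.congr fun i => ?_
    rw [map_smul, smul_eq_mul, map_add, map_add]
  · intro i
    have hηi := hηpos i
    have h1 : ((1 / (ρ + η i)) • WeakDual.toStrongDual (a + R i) -
        (1 / ρ) • WeakDual.toStrongDual a) (xs T (k (i + 1) + 1)) = 1 / (ρ + η i) := by
      show (1 / (ρ + η i)) * (a (xs T (k (i + 1) + 1)) + R i (xs T (k (i + 1) + 1))) -
        (1 / ρ) * a (xs T (k (i + 1) + 1)) = 1 / (ρ + η i)
      rw [haz, hRz]
      ring
    have h2 := ContinuousLinearMap.le_opNorm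
      ((1 / (ρ + η i)) • WeakDual.toStrongDual (a + R i) -
        (1 / ρ) • WeakDual.toStrongDual a) (xs T (k (i + 1) + 1))
    rw [h1] at h2
    have h3 : ‖xs T (k (i + 1) + 1)‖ ≤ τ := by
      rw [hτ]
      have := norm_xs T (k (i + 1) + 1)
      linarith
    have h4 : 1 / (ρ + 1) ≤ 1 / (ρ + η i) := by
      have := hη1 i
      gcongr
    rw [Real.norm_of_nonneg (by positivity)] at h2
    have h5 : 1 / (ρ + 1) ≤ ‖(1 / (ρ + η i)) • WeakDual.toStrongDual (a + R i) -
        (1 / ρ) • WeakDual.toStrongDual a‖ * τ := by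
      refine h4.trans (h2.trans ?_)
      gcongr
    rw [div_le_iff₀ (by positivity)] at h5
    rw [div_le_iff₀ (by positivity)]
    linarith

end Pool.Agent.W_MP_d6e406_an
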