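import Pool.Agent.W_MP_d6e406_an.Base

set_option autoImplicit false

namespace Pool.Agent.W_MP_d6e406_an

variable {X : Type*} [NormedAddCommGroup X] [NormedSpace ℝ X]

/-- the signed average -/
noncomputable def rr {m : ℕ} (b : (Fin m → Bool) → WeakDual ℝ X) (j : Fin m) : WeakDual ℝ X :=
  av (fun v => sg (v j) • b v)

theorem rr_apply {m : ℕ} (b : (Fin m → Bool) → WeakDual ℝ X) (j : Fin m) (y : X) :
    rr b j y = ((2 : ℝ) ^ m)⁻¹ * ∑ v, sg (v j) * b v y := by
  unfold rr
  rw [av_apply]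
  rfl

theorem add_rr {m : ℕ} (b : (Fin m → Bool) → WeakDual ℝ X) (j : Fin m) (y : X) :
    av b y + rr b j y = av (fun v => b (Function.update v j true)) y := by
  rw [av_apply, rr_apply, av_apply, sum_update j (fun v => b v y)]
  simp only [add_mul, one_mul, Finset.sum_add_distrib]
  ring

theorem toStrongDual_rr {m : ℕ} (b : (Fin m → Bool) → WeakDual ℝ X) (j : Fin m)
    (φ : (X →L[ℝ] ℝ) →L[ℝ] ℝ) :
    φ (WeakDual.toStrongDual (rr b j)) =
      ((2 : ℝ) ^ m)⁻¹ * ∑ v, sg (v j) * φ (WeakDual.toStrongDual (b v)) := by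
  unfold rr av
  rw [map_smul, map_sum, map_smul, map_sum, smul_eq_mul]
  congr 1
  refine Finset.sum_congr rfl fun v _ => ?_
  rw [map_smul, map_smul, smul_eq_mul]

/-- selection of a weakly small coordinate -/
theorem select (F : Finset ((X →L[ℝ] ℝ) →L[ℝ] ℝ)) (C : ℝ) (δ : ℝ) (hδ : 0 < δ) (J0 : ℕ) :
    ∃ m : ℕ, ∀ b : (Fin m → Bool) → WeakDual ℝ X, (∀ v, ‖WeakDual.toStrongDual (b v)‖ ≤ C) →
      ∃ j : Fin m, J0 ≤ (j : ℕ) ∧ ∀ φ ∈ F, |φ (WeakDual.toStrongDual (rr b j))| < δ := by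
  classical
  obtain ⟨Q, hQ⟩ := exists_nat_gt ((∑ φ ∈ F, (‖φ‖ * C) ^ 2) / δ ^ 2)
  refine ⟨J0 + Q, fun b hb => ?_⟩
  by_contra hcon
  push Not at hcon
  have h1 : ∀ φ : (X →L[ℝ] ℝ) →L[ℝ] ℝ,
      ∑ j : Fin (J0 + Q), (φ (WeakDual.toStrongDual (rr b j))) ^ 2 ≤ (‖φ‖ * C) ^ 2 := by
    intro φ
    have := bessel (fun v => φ (WeakDual.toStrongDual (b v))) (‖φ‖ * C) (by
      intro v
      calc |φ (WeakDual.toStrongDual (b v))| ≤ ‖φ‖ * ‖WeakDual.toStrongDual (b v)‖ :=
            φ.le_opNorm _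
        _ ≤ ‖φ‖ * C := by gcongr; exact hb v)
    calc ∑ j : Fin (J0 + Q), (φ (WeakDual.toStrongDual (rr b j))) ^ 2
        = ∑ j : Fin (J0 + Q), (((2 : ℝ) ^ (J0 + Q))⁻¹ * ∑ v, sg (v j) *
            φ (WeakDual.toStrongDual (b v))) ^ 2 := by
          refine Finset.sum_congr rfl fun j _ => by rw [toStrongDual_rr]
      _ ≤ (‖φ‖ * C) ^ 2 := this
  have h2 : ∑ j : Fin (J0 + Q), ∑ φ ∈ F, (φ (WeakDual.toStrongDual (rr b j))) ^ 2 ≤
      ∑ φ ∈ F, (‖φ‖ * C) ^ 2 := by
    rw [Finset.sum_comm]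
    exact Finset.sum_le_sum fun φ _ => h1 φ
  have h3 : ∀ j : Fin (J0 + Q), (if J0 ≤ (j : ℕ) then δ ^ 2 else 0) ≤
      ∑ φ ∈ F, (φ (WeakDual.toStrongDual (rr b j))) ^ 2 := by
    intro j
    split_ifs with hj
    · obtain ⟨φ, hφ, hφ2⟩ := hcon j hj
      calc δ ^ 2 ≤ |φ (WeakDual.toStrongDual (rr b j))| ^ 2 := by gcongr
        _ = (φ (WeakDual.toStrongDual (rr b j))) ^ 2 := sq_abs _
        _ ≤ _ := Finset.single_le_sum (f := fun φ : (X →L[ℝ] ℝ) →L[ℝ] ℝ =>
            (φ (WeakDual.toStrongDual (rr b j))) ^ 2) (fun φ _ => sq_nonneg _) hφ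
    · exact Finset.sum_nonneg fun φ _ => sq_nonneg _
  have h4 : (Q : ℝ) * δ ^ 2 ≤ ∑ j : Fin (J0 + Q), (if J0 ≤ (j : ℕ) then δ ^ 2 else 0) := by
    rw [Fin.sum_univ_eq_sum_range (fun j => if J0 ≤ j then δ ^ 2 else 0) (J0 + Q)]
    rw [Finset.sum_range_add]
    have : ∑ j ∈ Finset.range Q, (if J0 ≤ J0 + j then δ ^ 2 else 0) = (Q : ℝ) * δ ^ 2 := by
      simp
    rw [this]
    have h5 : 0 ≤ ∑ j ∈ Finset.range J0, (if J0 ≤ j then δ ^ 2 else 0) :=
      Finset.sum_nonneg fun j _ => by split_ifs <;> positivity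
    linarith
  have h5 : ∑ j : Fin (J0 + Q), (if J0 ≤ (j : ℕ) then δ ^ 2 else 0) ≤
      ∑ j : Fin (J0 + Q), ∑ φ ∈ F, (φ (WeakDual.toStrongDual (rr b j))) ^ 2 :=
    Finset.sum_le_sum fun j _ => h3 j
  rw [div_lt_iff₀ (by positivity)] at hQ
  linarith

theorem main (T : lp (fun _ : ℕ => ℝ) 1 →L[ℝ] X) (c : ℝ) (hc : 0 < c)
    (hT : ∀ y, c * ‖y‖ ≤ ‖T y‖) (N : X → ℝ)
    (hN2 : ∀ (r : ℝ) (x : X), N (r • x) = |r| * N x)
    (c1 : ℝ) (hc1 : 0 < c1) (hN3 : ∀ x, c1 * ‖x‖ ≤ N x) :
    ∃ f : X →L[ℝ] ℝ, (∀ x, f x ≤ N x) ∧ (∀ ε : ℝ, 0 < ε → ∃ x, N x ≤ 1 ∧ 1 - ε < f x) ∧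
      ∃ ε : ℝ, 0 < ε ∧ ∀ F : Finset ((X →L[ℝ] ℝ) →L[ℝ] ℝ), ∀ δ : ℝ, 0 < δ →
        ∃ g : X →L[ℝ] ℝ, (∀ x, g x ≤ N x) ∧ (∀ φ ∈ F, |φ (g - f)| < δ) ∧ ε ≤ ‖g - f‖ := by
  classical
  have hN0 : N 0 = 0 := by
    have := hN2 0 0
    simpa using this
  have hNnn : ∀ x, 0 ≤ N x := fun x => le_trans (by positivity) (hN3 x)
  obtain ⟨K, hK, hKle, hmin⟩ := exists_minimal_sys _ (K0_sys T c hc hT)
  -- bound
  set M : ℝ := (1 / c) * (1 / c1) with hMdef
  have hMpos : 0 < M := by positivity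
  have hM : ∀ s, ∀ f ∈ K s, ∀ y, N y ≤ 1 → f y ≤ M := by
    intro s f hf y hy
    have h1 : ‖WeakDual.toStrongDual f‖ ≤ 1 / c := (hKle s hf).1
    have h2 : ‖y‖ ≤ 1 / c1 := by
      rw [le_div_iff₀ hc1]
      have := hN3 y
      linarith
    calc f y ≤ |f y| := le_abs_self _
      _ = ‖(WeakDual.toStrongDual f) y‖ := rfl
      _ ≤ ‖WeakDual.toStrongDual f‖ * ‖y‖ := ContinuousLinearMap.le_opNorm _ _
      _ ≤ (1 / c) * (1 / c1) := by gcongr
  obtain ⟨Θ, k, β, x, hS⟩ := exists_scheme K hK hmin N ⟨0, by rw [hN0]; norm_num⟩ M hM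
  obtain ⟨a, ha⟩ := exists_limit K hK Θ (fun j => (hS j).2.1)
  have hpre := scheme_prefix Θ (fun j => (hS j).2.1)
  -- basic values of a
  have ha0 : a (xs T 0) = 1 := by
    obtain ⟨b, hb, hba⟩ := ha 0
    rw [← hba, av_apply]
    have : ∀ v, b v (xs T 0) = 1 := fun v => (hKle _ (hb v)).2.1
    simp [this]
  have haM : ∀ y, N y ≤ 1 → a y ≤ M := by
    intro y hy
    obtain ⟨b, hb, hba⟩ := ha 0
    rw [← hba, av_apply]
    simpa using hM _ _ (hb _) y hy
  -- rho
  set ρ : ℝ := sSup ((fun y => a y) '' {y | N y ≤ 1}) with hρ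
  have hbdd : BddAbove ((fun y => a y) '' {y | N y ≤ 1}) := by
    refine ⟨M, ?_⟩
    rintro _ ⟨y, hy, rfl⟩
    exact haM y hy
  have hne : ((fun y => a y) '' {y | N y ≤ 1}).Nonempty := ⟨_, 0, by simp [hN0], rfl⟩
  have hle1 : ∀ y, N y ≤ 1 → a y ≤ ρ := fun y hy => le_csSup hbdd ⟨y, hy, rfl⟩
  have hxs0 : 0 < N (xs T 0) := by
    refine lt_of_lt_of_le ?_ (hN3 _)
    have h1 : xs T 0 ≠ 0 := by
      intro h
      rw [h] at ha0
      have : a (0 : X) = 0 := map_zero (WeakDual.toStrongDual a)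
      rw [this] at ha0
      exact zero_ne_one ha0
    exact mul_pos hc1 (norm_pos_iff.mpr h1)
  have hsmul : ∀ (f : WeakDual ℝ X) (t : ℝ) (y : X), f (t • y) = t * f y := fun f t y =>
    (WeakDual.toStrongDual f).map_smul t y
  have hρpos : 0 < ρ := by
    have h1 : N ((1 / N (xs T 0)) • xs T 0) ≤ 1 := by
      rw [hN2, abs_of_pos (by positivity)]
      field_simp
      norm_num
    have h2 := hle1 _ h1
    rw [hsmul, ha0, mul_one] at h2
    have h3 : 0 < 1 / N (xs T 0) := by positivity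
    linarith
  -- homogeneity principle
  have hom : ∀ (f : WeakDual ℝ X) (t : ℝ), (∀ y, N y ≤ 1 → f y ≤ t) → ∀ y, f y ≤ t * N y := by
    intro f t hf y
    by_cases hy : y = 0
    · subst hy
      have : f (0 : X) = 0 := map_zero (WeakDual.toStrongDual f)
      rw [this, hN0, mul_zero]
    · have hNy : 0 < N y := lt_of_lt_of_le (mul_pos hc1 (norm_pos_iff.mpr hy)) (hN3 y)
      have h1 : N ((1 / N y) • y) ≤ 1 := by
        rw [hN2, abs_of_pos (by positivity)]
        field_simp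
        norm_num
      have h2 := hf _ h1
      rw [hsmul] at h2
      rw [one_div, inv_mul_le_iff₀ hNy] at h2
      linarith
  -- the functional
  refine ⟨(1 / ρ) • WeakDual.toStrongDual a, ?_, ?_, ?_⟩
  · intro y
    have h1 := hom a ρ hle1 y
    show (1 / ρ) * a y ≤ N y
    rw [one_div, inv_mul_le_iff₀ hρpos]
    exact h1
  · intro ε hε
    obtain ⟨_, ⟨y, hy, rfl⟩, hlt⟩ := exists_lt_of_lt_csSup hne
      (show ρ - ε * ρ < sSup ((fun y => a y) '' {y | N y ≤ 1}) by
        rw [← hρ]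
        have := mul_pos hε hρpos
        linarith)
    refine ⟨y, hy, ?_⟩
    show 1 - ε < (1 / ρ) * a y
    rw [one_div, lt_inv_mul_iff₀ hρpos]
    have hlt' : ρ - ε * ρ < a y := hlt
    linarith
  · -- the modulus
    set τ : ℝ := ‖T‖ + 1 with hτ
    have hτpos : 0 < τ := by positivity
    refine ⟨1 / ((ρ + 1) * τ), by positivity, ?_⟩
    intro F δ hδ
    -- bound for phi(a)
    obtain ⟨A, hApos, hA⟩ : ∃ A : ℝ, 0 < A ∧ ∀ φ ∈ F, |φ (WeakDual.toStrongDual a)| ≤ A := by
      refine ⟨1 + ∑ φ ∈ F, |φ (WeakDual.toStrongDual a)|, ?_, ?_⟩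
      · have : 0 ≤ ∑ φ ∈ F, |φ (WeakDual.toStrongDual a)| :=
          Finset.sum_nonneg fun φ _ => abs_nonneg _
        linarith
      · intro φ hφ
        have := Finset.single_le_sum (f := fun φ : (X →L[ℝ] ℝ) →L[ℝ] ℝ =>
          |φ (WeakDual.toStrongDual a)|) (fun φ _ => abs_nonneg _) hφ
        linarith
    obtain ⟨J0, hJ0⟩ := exists_nat_gt (2 * A / (ρ ^ 2 * δ))
    obtain ⟨m, hm⟩ := select (X := X) F (1 / c) (ρ * δ / 2) (by positivity) (J0 + 1)
    obtain ⟨b, hb, hba⟩ := ha m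
    obtain ⟨j, hj, hjF⟩ := hm b (fun v => (hKle _ (hb v)).1)
    -- write j = i + 1
    obtain ⟨i, hi⟩ : ∃ i, (j : ℕ) = i + 1 := ⟨(j : ℕ) - 1, by omega⟩
    have hJi : J0 ≤ i := by omega
    set η : ℝ := 1 / ((i : ℝ) + 1) with hη
    have hηpos : 0 < η := by positivity
    have hη1 : η ≤ 1 := by
      rw [hη, div_le_one (by positivity)]
      have : (0 : ℝ) ≤ i := by positivity
      linarith
    have hjm := j.2
    have him : i + 1 ≤ m := by omega
    have him2 : i + 2 ≤ m := by omega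
    -- value at the special vector
    set z : X := xs T (k (i + 1) + 1) with hz
    have hbz : ∀ v, b v z = sg (v j) := by
      intro v
      have h1 := (hS (i + 1)).2.2.1 (fun l => v (Fin.castLE him2 l))
      have h2 := hpre (i + 2) m him2 v
      have h3 := prefix_getElem? h2 _ _ h1
      have h4 := (hKle _ (hb v)).2.2 _ _ h3
      rw [hz, h4]
      congr 2
      ext
      simp [hi]
    have hrz : rr b j z = 1 := by
      rw [rr_apply]
      simp only [hbz, sum_sg_mul_self]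
      field_simp
    have haz : a z = 0 := by
      rw [← hba, av_apply]
      simp only [hbz, sum_sg, mul_zero]
    -- upper bound for a + r
    have hupper : ∀ y, N y ≤ 1 → a y + rr b j y ≤ β i := by
      intro y hy
      rw [← hba, add_rr]
      obtain ⟨c', hc', hav⟩ := push (fun u : Fin (i + 1) → Bool => K (Θ (i + 1) u))
        (fun u => hK.cvx _) m him (fun v => b (Function.update v j true)) (by
          intro v
          have h1 := hpre (i + 1) m him (Function.update v j true)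
          have h2 : (fun l => Function.update v j true (Fin.castLE him l)) =
              (fun l => v (Fin.castLE him l)) := by
            funext l
            rw [Function.update_of_ne]
            intro h
            have h3 := congrArg Fin.val h
            have h4 := l.2
            simp only [Fin.val_castLE] at h3
            omega
          rw [h2] at h1
          exact hK.mono _ _ h1 (hb _))
      rw [← hav]
      exact ((hS i).2.2.2 c' hc').2 y hy
    have hlow : β i - η < ρ := by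
      obtain ⟨b', hb', hba'⟩ := ha (i + 1)
      have h1 := ((hS i).2.2.2 b' hb').1
      rw [hba'] at h1
      exact h1.trans_le (hle1 _ (hS i).1)
    have hupper2 : ∀ y, N y ≤ 1 → (a + rr b j) y ≤ ρ + η := by
      intro y hy
      have h1 := hupper y hy
      have h2 : (a + rr b j) y = a y + rr b j y := rfl
      rw [h2]
      linarith
    refine ⟨(1 / (ρ + η)) • WeakDual.toStrongDual (a + rr b j), ?_, ?_, ?_⟩
    · intro y
      have h1 := hom _ _ hupper2 y
      show (1 / (ρ + η)) * (a + rr b j) y ≤ N y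
      rw [one_div, inv_mul_le_iff₀ (by positivity)]
      exact h1
    · intro φ hφ
      have h1 : (1 / (ρ + η)) • WeakDual.toStrongDual (a + rr b j) -
          (1 / ρ) • WeakDual.toStrongDual a =
          (1 / (ρ + η)) • WeakDual.toStrongDual (rr b j) -
            (η / (ρ * (ρ + η))) • WeakDual.toStrongDual a := by
        rw [map_add, smul_add]
        have h2 : (η / (ρ * (ρ + η))) = 1 / ρ - 1 / (ρ + η) := by
          field_simp
          ring
        have h22 : (1 / ρ - 1 / (ρ + η)) • WeakDual.toStrongDual a =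
            (1 / ρ) • WeakDual.toStrongDual a - (1 / (ρ + η)) • WeakDual.toStrongDual a := by
          ext y
          show (1 / ρ - 1 / (ρ + η)) * a y = (1 / ρ) * a y - (1 / (ρ + η)) * a y
          ring
        rw [h2, h22]
        abel
      rw [h1, map_sub, map_smul, map_smul, smul_eq_mul, smul_eq_mul]
      have h3 := hjF φ hφ
      have h4 := hA φ hφ
      have h5 : |1 / (ρ + η) * φ (WeakDual.toStrongDual (rr b j))| < δ / 2 := by
        rw [abs_mul, abs_of_pos (by positivity)]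
        calc 1 / (ρ + η) * |φ (WeakDual.toStrongDual (rr b j))|
            < 1 / (ρ + η) * (ρ * δ / 2) := by gcongr
          _ ≤ 1 / ρ * (ρ * δ / 2) := by
              gcongr
              linarith
          _ = δ / 2 := by field_simp
      have h6 : |η / (ρ * (ρ + η)) * φ (WeakDual.toStrongDual a)| < δ / 2 := by
        rw [abs_mul, abs_of_pos (by positivity)]
        have h7 : η * (2 * A) < ρ ^ 2 * δ := by
          have h8 : 2 * A / (ρ ^ 2 * δ) < (i : ℝ) + 1 := by
            have : (J0 : ℝ) ≤ i := by exact_mod_cast hJi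
            linarith
          rw [div_lt_iff₀ (by positivity)] at h8
          rw [hη, one_div, inv_mul_lt_iff₀ (by positivity)]
          exact h8
        calc η / (ρ * (ρ + η)) * |φ (WeakDual.toStrongDual a)|
            ≤ η / (ρ * (ρ + η)) * A := by gcongr
          _ ≤ η / (ρ * ρ) * A := by
              gcongr
              linarith
          _ = (η * (2 * A)) / (2 * ρ ^ 2) := by field_simp
          _ < (ρ ^ 2 * δ) / (2 * ρ ^ 2) := by gcongr
          _ = δ / 2 := by field_simp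
      calc |1 / (ρ + η) * φ (WeakDual.toStrongDual (rr b j)) -
            η / (ρ * (ρ + η)) * φ (WeakDual.toStrongDual a)|
          ≤ |1 / (ρ + η) * φ (WeakDual.toStrongDual (rr b j))| +
            |η / (ρ * (ρ + η)) * φ (WeakDual.toStrongDual a)| := abs_sub _ _
        _ < δ / 2 + δ / 2 := add_lt_add h5 h6
        _ = δ := by ring
    · have h1 : ((1 / (ρ + η)) • WeakDual.toStrongDual (a + rr b j) -
          (1 / ρ) • WeakDual.toStrongDual a) z = 1 / (ρ + η) := by
        show (1 / (ρ + η)) * (a z + rr b j z) - (1 / ρ) * a z = 1 / (ρ + η)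
        rw [haz, hrz]
        ring
      have h2 := ContinuousLinearMap.le_opNorm
        ((1 / (ρ + η)) • WeakDual.toStrongDual (a + rr b j) -
          (1 / ρ) • WeakDual.toStrongDual a) z
      rw [h1] at h2
      have h3 : ‖z‖ ≤ τ := by
        rw [hτ]
        have := norm_xs T (k (i + 1) + 1)
        rw [← hz] at this
        linarith
      have h4 : 1 / (ρ + 1) ≤ 1 / (ρ + η) := by
        gcongr
      rw [Real.norm_of_nonneg (by positivity)] at h2
      have h5 : 1 / (ρ + 1) ≤ ‖(1 / (ρ + η)) • WeakDual.toStrongDual (a + rr b j) -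
          (1 / ρ) • WeakDual.toStrongDual a‖ * τ := by
        refine h4.trans (h2.trans ?_)
        gcongr
      rw [div_le_iff₀ (by positivity)] at h5
      rw [div_le_iff₀ (by positivity)]
      linarith

end Pool.Agent.W_MP_d6e406_an
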