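import Pool.Agent.W_MP_d6e406_an.Main

set_option autoImplicit false

open Filter Topology

namespace Pool.Agent.W_MP_d6e406_an

variable {X : Type*} [NormedAddCommGroup X] [NormedSpace ℝ X]

/-- the averaging operator from one level to the previous one -/
noncomputable def dn {m : ℕ} (c : (Fin (m + 1) → Bool) → WeakDual ℝ X) (u : Fin m → Bool) :
    WeakDual ℝ X :=
  (1 / 2 : ℝ) • c (Fin.snoc u true) + (1 / 2 : ℝ) • c (Fin.snoc u false)

theorem dn_mem (K : List Bool → Set (WeakDual ℝ X)) (hK : IsSys K)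
    (Θ : (j : ℕ) → (Fin j → Bool) → List Bool)
    (h : ∀ j v, Θ j (Fin.init v) <+: Θ (j + 1) v) {m : ℕ}
    (c : (Fin (m + 1) → Bool) → WeakDual ℝ X) (hc : ∀ v, c v ∈ K (Θ (m + 1) v))
    (u : Fin m → Bool) : dn c u ∈ K (Θ m u) := by
  refine hK.cvx _ ?_ ?_ (by norm_num) (by norm_num) (by norm_num)
  · have h1 := h m (Fin.snoc u true)
    rw [Fin.init_snoc] at h1
    exact hK.mono _ _ h1 (hc _)
  · have h1 := h m (Fin.snoc u false)
    rw [Fin.init_snoc] at h1
    exact hK.mono _ _ h1 (hc _)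

theorem exists_martingale (K : List Bool → Set (WeakDual ℝ X)) (hK : IsSys K)
    (Θ : (j : ℕ) → (Fin j → Bool) → List Bool)
    (h : ∀ j v, Θ j (Fin.init v) <+: Θ (j + 1) v) :
    ∃ b : (m : ℕ) → (Fin m → Bool) → WeakDual ℝ X, (∀ m v, b m v ∈ K (Θ m v)) ∧
      ∀ m (u : Fin m → Bool), b m u = dn (b (m + 1)) u := by
  classical
  -- finite-level solutions
  have hfin : ∀ (M : ℕ) (c : (m : ℕ) → (Fin m → Bool) → WeakDual ℝ X),
      (∀ m v, c m v ∈ K (Θ m v)) →
      ∃ b : (m : ℕ) → (Fin m → Bool) → WeakDual ℝ X, (∀ m v, b m v ∈ K (Θ m v)) ∧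
        (∀ m, m < M → ∀ u : Fin m → Bool, b m u = dn (b (m + 1)) u) ∧
        ∀ m, M ≤ m → b m = c m := by
    intro M
    induction M with
    | zero => intro c hc; exact ⟨c, hc, fun m hm => absurd hm (by omega), fun m _ => rfl⟩
    | succ M ih =>
      intro c hc
      obtain ⟨b, hb1, hb2, hb3⟩ := ih (Function.update c M (dn (c (M + 1)))) (by
        intro m v
        by_cases hm : m = M
        · subst hm
          rw [Function.update_self]
          exact dn_mem K hK Θ h _ (hc _) v
        · rw [Function.update_of_ne hm]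
          exact hc m v)
      refine ⟨b, hb1, ?_, ?_⟩
      · intro m hm u
        by_cases hmM : m < M
        · exact hb2 m hmM u
        · have : m = M := by omega
          subst this
          have e1 := hb3 m le_rfl
          have e2 := hb3 (m + 1) (by omega)
          rw [Function.update_self] at e1
          rw [Function.update_of_ne (by omega)] at e2
          rw [e1, e2]
      · intro m hm
        rw [hb3 m (by omega), Function.update_of_ne (by omega)]
  let P : Set ((m : ℕ) → (Fin m → Bool) → WeakDual ℝ X) :=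
    Set.univ.pi fun m => Set.univ.pi fun v => K (Θ m v)
  have hP : IsCompact P := isCompact_univ_pi fun m => isCompact_univ_pi fun v => hK.cpt _
  let A : ℕ → Set ((m : ℕ) → (Fin m → Bool) → WeakDual ℝ X) := fun M =>
    P ∩ {b | ∀ m, m < M → ∀ u : Fin m → Bool, b m u = dn (b (m + 1)) u}
  have hcl : ∀ M, IsClosed {b : (m : ℕ) → (Fin m → Bool) → WeakDual ℝ X |
      ∀ m, m < M → ∀ u : Fin m → Bool, b m u = dn (b (m + 1)) u} := by
    intro M
    simp only [Set.ofPred_forall]
    refine isClosed_iInter fun m => isClosed_iInter fun _ => isClosed_iInter fun u => ?_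
    have hc : ∀ (m : ℕ) (v : Fin m → Bool),
        Continuous (fun b : (m : ℕ) → (Fin m → Bool) → WeakDual ℝ X => b m v) := fun m v =>
      (continuous_apply v).comp (continuous_apply m)
    refine isClosed_eq (hc m u) ?_
    unfold dn
    exact ((hc (m + 1) _).const_smul (1 / 2 : ℝ)).add ((hc (m + 1) _).const_smul (1 / 2 : ℝ))
  have hne : ∀ M, (A M).Nonempty := by
    intro M
    choose c hc using fun (m : ℕ) (v : Fin m → Bool) => hK.ne (Θ m v)
    obtain ⟨b, hb1, hb2, -⟩ := hfin M c hc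
    exact ⟨b, fun m _ v _ => hb1 m v, hb2⟩
  obtain ⟨b, hb⟩ := IsCompact.nonempty_iInter_of_sequence_nonempty_isCompact_isClosed A
    (fun M b hb => ⟨hb.1, fun m hm => hb.2 m (by omega)⟩) hne (hP.inter_right (hcl 0))
    (fun M => hP.isClosed.inter (hcl M))
  rw [Set.mem_iInter] at hb
  refine ⟨b, fun m v => (hb 0).1 m (Set.mem_univ _) v (Set.mem_univ _), fun m u => ?_⟩
  exact (hb (m + 1)).2 m (by omega) u

theorem av_mart (b : (m : ℕ) → (Fin m → Bool) → WeakDual ℝ X)
    (hb : ∀ m (u : Fin m → Bool), b m u = dn (b (m + 1)) u) (m : ℕ) :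
    av (b m) = av (b 0) := by
  induction m with
  | zero => rfl
  | succ m ih =>
    rw [← ih, av_succ]
    congr 1
    funext u
    rw [hb m u]
    rfl

theorem rr_succ (b : (m : ℕ) → (Fin m → Bool) → WeakDual ℝ X)
    (hb : ∀ m (u : Fin m → Bool), b m u = dn (b (m + 1)) u) (m : ℕ) (j : Fin m) :
    rr (b (m + 1)) j.castSucc = rr (b m) j := by
  unfold rr
  rw [av_succ]
  congr 1
  funext u
  rw [Fin.snoc_castSucc, Fin.snoc_castSucc, hb m u]
  unfold dn
  rw [smul_add, smul_comm, smul_comm (1 / 2 : ℝ)]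

theorem rr_const (b : (m : ℕ) → (Fin m → Bool) → WeakDual ℝ X)
    (hb : ∀ m (u : Fin m → Bool), b m u = dn (b (m + 1)) u) (j : ℕ) :
    ∀ m (hjm : j + 1 ≤ m), rr (b m) ⟨j, hjm⟩ = rr (b (j + 1)) (Fin.last j) := by
  intro m hjm
  induction m, hjm using Nat.le_induction with
  | base => rfl
  | succ m hjm ih =>
    rw [← ih, ← rr_succ b hb m ⟨j, hjm⟩]
    rfl

end Pool.Agent.W_MP_d6e406_an
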