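import Pool.Agent.W_MP_d6e406_an.Av

set_option autoImplicit false

namespace Pool.Agent.W_MP_d6e406_an

variable {X : Type*} [NormedAddCommGroup X] [NormedSpace ℝ X]

theorem prefix_getElem? {s t : List Bool} (h : s <+: t) (k : ℕ) (e : Bool)
    (hs : s[k]? = some e) : t[k]? = some e := by
  obtain ⟨r, rfl⟩ := h
  have hk : k < s.length := by
    by_contra hcon
    push Not at hcon
    rw [List.getElem?_eq_none hcon] at hs
    exact absurd hs (by simp)
  rw [List.getElem?_append_left hk]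
  exact hs

theorem step (K : List Bool → Set (WeakDual ℝ X)) (hK : IsSys K)
    (hmin : ∀ K' : List Bool → Set (WeakDual ℝ X), IsSys K' → (∀ s, K' s ⊆ K s) →
      ∀ s, K s ⊆ K' s)
    (N : X → ℝ) (hN0 : ∃ x, N x ≤ 1) (M : ℝ) (hM : ∀ s, ∀ f ∈ K s, ∀ y, N y ≤ 1 → f y ≤ M)
    (j : ℕ) (Θ : (Fin j → Bool) → List Bool) (η : ℝ) (hη : 0 < η) :
    ∃ (k : ℕ) (Θ' : (Fin (j + 1) → Bool) → List Bool) (β : ℝ) (x : X), N x ≤ 1 ∧
      (∀ v, Θ (Fin.init v) <+: Θ' v) ∧ (∀ v, (Θ' v)[k]? = some (v (Fin.last j))) ∧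
      ∀ b : (Fin (j + 1) → Bool) → WeakDual ℝ X, (∀ v, b v ∈ K (Θ' v)) →
        β - η < av b x ∧ ∀ y, N y ≤ 1 → av b y ≤ β := by
  classical
  set k : ℕ := Finset.univ.sup (fun u : Fin j → Bool => (Θ u).length) with hk
  set Θ1 : (Fin (j + 1) → Bool) → List Bool := fun v =>
    (Θ (Fin.init v) ++ List.replicate (k - (Θ (Fin.init v)).length) true) ++ [v (Fin.last j)]
    with hΘ1
  have hlen : ∀ u : Fin j → Bool, (Θ u).length ≤ k := fun u =>
    Finset.le_sup (f := fun u : Fin j → Bool => (Θ u).length) (Finset.mem_univ u)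
  have hlen1 : ∀ u : Fin j → Bool,
      (Θ u ++ List.replicate (k - (Θ u).length) true).length = k := by
    intro u
    rw [List.length_append, List.length_replicate]
    have := hlen u
    omega
  have hpre : ∀ v, Θ (Fin.init v) <+: Θ1 v := by
    intro v
    simp only [hΘ1, List.append_assoc]
    exact List.prefix_append _ _
  have hent : ∀ v, (Θ1 v)[k]? = some (v (Fin.last j)) := by
    intro v
    simp only [hΘ1]
    rw [List.getElem?_append_right (by rw [hlen1]), hlen1]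
    simp
  -- the set of values
  set R : Set ℝ := {r | ∃ b : (Fin (j + 1) → Bool) → WeakDual ℝ X, (∀ v, b v ∈ K (Θ1 v)) ∧
    ∃ y, N y ≤ 1 ∧ r = av b y} with hR
  have hav : ∀ b : (Fin (j + 1) → Bool) → WeakDual ℝ X, (∀ v, b v ∈ K (Θ1 v)) →
      ∀ y, N y ≤ 1 → av b y ≤ M := by
    intro b hb y hy
    rw [av_apply]
    have h1 : ∑ v, b v y ≤ ∑ v : Fin (j + 1) → Bool, M :=
      Finset.sum_le_sum fun v _ => hM _ _ (hb v) y hy
    have h2 : ∑ v : Fin (j + 1) → Bool, M = 2 ^ (j + 1) * M := by simp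
    rw [h2] at h1
    rw [inv_mul_le_iff₀ (by positivity)]
    exact h1
  have hbdd : BddAbove R := by
    refine ⟨M, ?_⟩
    rintro r ⟨b, hb, y, hy, rfl⟩
    exact hav b hb y hy
  have hRne : R.Nonempty := by
    obtain ⟨x0, hx0⟩ := hN0
    choose b hb using fun v => hK.ne (Θ1 v)
    exact ⟨_, b, hb, x0, hx0, rfl⟩
  obtain ⟨r, ⟨b, hb, x, hx, hr⟩, hlt⟩ := exists_lt_of_lt_csSup hRne
    (show sSup R - η < sSup R by linarith)
  set ε : ℝ := av b x - (sSup R - η) with hε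
  have hεpos : 0 < ε := by rw [hε, ← hr]; linarith
  choose s' hs'1 hs'2 using fun v => slice K hK hmin (Θ1 v) x (b v) (hb v) (b v x - ε / 2)
    (by linarith)
  refine ⟨k, s', sSup R, x, hx, fun v => (hpre v).trans (hs'1 v),
    fun v => prefix_getElem? (hs'1 v) _ _ (hent v), ?_⟩
  intro c hc
  constructor
  · have h1 : ∑ v, (b v x - ε / 2) ≤ ∑ v, c v x :=
      Finset.sum_le_sum fun v _ => (hs'2 v _ (hc v)).le
    have h2 : ∑ v : Fin (j + 1) → Bool, (b v x - ε / 2) =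
        (∑ v, b v x) - 2 ^ (j + 1) * (ε / 2) := by
      rw [Finset.sum_sub_distrib]; simp
    rw [h2] at h1
    have h3 : av b x - ε / 2 ≤ av c x := by
      rw [av_apply, av_apply]
      have h4 : (0 : ℝ) < 2 ^ (j + 1) := by positivity
      calc ((2 : ℝ) ^ (j + 1))⁻¹ * ∑ v, b v x - ε / 2
          = ((2 : ℝ) ^ (j + 1))⁻¹ * ((∑ v, b v x) - 2 ^ (j + 1) * (ε / 2)) := by
            field_simp
        _ ≤ ((2 : ℝ) ^ (j + 1))⁻¹ * ∑ v, c v x := by gcongr
    have h5 : sSup R - η = av b x - ε := by rw [hε]; ring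
    linarith
  · intro y hy
    exact le_csSup hbdd ⟨c, fun v => hK.mono _ _ (hs'1 v) (hc v), y, hy, rfl⟩

theorem exists_scheme (K : List Bool → Set (WeakDual ℝ X)) (hK : IsSys K)
    (hmin : ∀ K' : List Bool → Set (WeakDual ℝ X), IsSys K' → (∀ s, K' s ⊆ K s) →
      ∀ s, K s ⊆ K' s)
    (N : X → ℝ) (hN0 : ∃ x, N x ≤ 1) (M : ℝ) (hM : ∀ s, ∀ f ∈ K s, ∀ y, N y ≤ 1 → f y ≤ M) :
    ∃ (Θ : (j : ℕ) → (Fin j → Bool) → List Bool) (k : ℕ → ℕ) (β : ℕ → ℝ) (x : ℕ → X),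
      ∀ j, N (x j) ≤ 1 ∧ (∀ v, Θ j (Fin.init v) <+: Θ (j + 1) v) ∧
      (∀ v, (Θ (j + 1) v)[k j]? = some (v (Fin.last j))) ∧
      ∀ b : (Fin (j + 1) → Bool) → WeakDual ℝ X, (∀ v, b v ∈ K (Θ (j + 1) v)) →
        β j - 1 / ((j : ℝ) + 1) < av b (x j) ∧ ∀ y, N y ≤ 1 → av b y ≤ β j := by
  choose kf Tf bf xf h using fun (j : ℕ) (Θ : (Fin j → Bool) → List Bool) =>
    step K hK hmin N hN0 M hM j Θ (1 / ((j : ℝ) + 1)) (by positivity)
  let Θ : (j : ℕ) → (Fin j → Bool) → List Bool := fun j =>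
    Nat.rec (motive := fun j => (Fin j → Bool) → List Bool) (fun _ => []) (fun j Θj => Tf j Θj) j
  exact ⟨Θ, fun j => kf j (Θ j), fun j => bf j (Θ j), fun j => xf j (Θ j), fun j => h j (Θ j)⟩

/-- prefixes along the whole tree -/
theorem scheme_prefix (Θ : (j : ℕ) → (Fin j → Bool) → List Bool)
    (h : ∀ j v, Θ j (Fin.init v) <+: Θ (j + 1) v) (j : ℕ) :
    ∀ (m : ℕ) (hjm : j ≤ m) (v : Fin m → Bool),
      Θ j (fun i => v (Fin.castLE hjm i)) <+: Θ m v := by
  intro m hjm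
  induction m, hjm using Nat.le_induction with
  | base => intro v; exact List.prefix_rfl
  | succ m hjm ih =>
    intro v
    refine List.IsPrefix.trans ?_ (h m v)
    have := ih (Fin.init v)
    exact this

theorem exists_limit (K : List Bool → Set (WeakDual ℝ X)) (hK : IsSys K)
    (Θ : (j : ℕ) → (Fin j → Bool) → List Bool)
    (h : ∀ j v, Θ j (Fin.init v) <+: Θ (j + 1) v) :
    ∃ a : WeakDual ℝ X, ∀ m, ∃ b : (Fin m → Bool) → WeakDual ℝ X,
      (∀ v, b v ∈ K (Θ m v)) ∧ av b = a := by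
  let E : ℕ → Set (WeakDual ℝ X) := fun m =>
    (fun b : (Fin m → Bool) → WeakDual ℝ X => av b) '' (Set.univ.pi fun v => K (Θ m v))
  have hcpt : ∀ m, IsCompact (E m) := by
    intro m
    refine (isCompact_univ_pi fun v => hK.cpt (Θ m v)).image ?_
    have hsum : Continuous (fun b : (Fin m → Bool) → WeakDual ℝ X => ∑ v, b v) :=
      continuous_finsetSum _ fun v _ => continuous_apply v
    exact hsum.const_smul (((2 : ℝ) ^ m)⁻¹)
  have hne : ∀ m, (E m).Nonempty := by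
    intro m
    choose b hb using fun v => hK.ne (Θ m v)
    exact ⟨av b, b, fun v _ => hb v, rfl⟩
  have hdec : ∀ m, E (m + 1) ⊆ E m := by
    rintro m _ ⟨b, hb, rfl⟩
    refine ⟨fun u : Fin m → Bool =>
      (1 / 2 : ℝ) • b (Fin.snoc u true) + (1 / 2 : ℝ) • b (Fin.snoc u false), ?_, (av_succ b).symm⟩
    intro u _
    refine hK.cvx _ ?_ ?_ (by norm_num) (by norm_num) (by norm_num)
    · have h1 := h m (Fin.snoc u true)
      rw [Fin.init_snoc] at h1
      exact hK.mono _ _ h1 (hb _ (Set.mem_univ _))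
    · have h1 := h m (Fin.snoc u false)
      rw [Fin.init_snoc] at h1
      exact hK.mono _ _ h1 (hb _ (Set.mem_univ _))
  obtain ⟨a, ha⟩ := IsCompact.nonempty_iInter_of_sequence_nonempty_isCompact_isClosed E hdec hne
    (hcpt 0) (fun m => (hcpt m).isClosed)
  refine ⟨a, fun m => ?_⟩
  obtain ⟨b, hb, hba⟩ := Set.mem_iInter.mp ha m
  exact ⟨b, fun v => hb v (Set.mem_univ _), hba⟩

end Pool.Agent.W_MP_d6e406_an
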