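import Mathlib

set_option autoImplicit false

namespace Pool.Agent.W_MP_d6e406_an

variable {X : Type*} [NormedAddCommGroup X] [NormedSpace ℝ X]

/-- A monotone system of nonempty weak-star compact convex sets indexed by finite 0-1 words. -/
structure IsSys (K : List Bool → Set (WeakDual ℝ X)) : Prop where
  ne : ∀ s, (K s).Nonempty
  cpt : ∀ s, IsCompact (K s)
  cvx : ∀ s, Convex ℝ (K s)
  mono : ∀ s t, s <+: t → K t ⊆ K s

theorem exists_minimal_sys (K0 : List Bool → Set (WeakDual ℝ X)) (h0 : IsSys K0) :
    ∃ K : List Bool → Set (WeakDual ℝ X), IsSys K ∧ (∀ s, K s ⊆ K0 s) ∧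
      ∀ K' : List Bool → Set (WeakDual ℝ X), IsSys K' → (∀ s, K' s ⊆ K s) → ∀ s, K s ⊆ K' s := by
  classical
  let S : Set (Set (List Bool × WeakDual ℝ X)) := {W | IsSys (fun s => {f | (s, f) ∈ W})}
  have hW0 : {q : List Bool × WeakDual ℝ X | q.2 ∈ K0 q.1} ∈ S := h0
  obtain ⟨m, hm, hmin⟩ := zorn_superset_nonempty S (by
    intro c hcS hchain hcne
    refine ⟨⋂₀ c, ?_, fun s hs => Set.sInter_subset_of_mem hs⟩
    have key : ∀ s : List Bool, {f : WeakDual ℝ X | (s, f) ∈ ⋂₀ c} =
        ⋂ W : c, {f : WeakDual ℝ X | (s, f) ∈ W.1} := by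
      intro s
      ext f
      simp [Set.mem_sInter]
    have hcne' : Nonempty c := hcne.to_subtype
    have hsys : ∀ W : c, IsSys (fun s => {f : WeakDual ℝ X | (s, f) ∈ W.1}) := fun W => hcS W.2
    show IsSys (fun s => {f : WeakDual ℝ X | (s, f) ∈ ⋂₀ c})
    have hclosed : ∀ (s : List Bool) (W : c), IsClosed {f : WeakDual ℝ X | (s, f) ∈ W.1} :=
      fun s W => ((hsys W).cpt s).isClosed
    refine ⟨?_, ?_, ?_, ?_⟩
    · intro s
      rw [key s]
      refine IsCompact.nonempty_iInter_of_directed_nonempty_isCompact_isClosed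
        (fun W : c => {f : WeakDual ℝ X | (s, f) ∈ W.1}) ?_ (fun W => (hsys W).ne s)
        (fun W => (hsys W).cpt s) (fun W => hclosed s W)
      intro W1 W2
      rcases hchain.total W1.2 W2.2 with h | h
      · exact ⟨W1, fun f hf => hf, fun f hf => h hf⟩
      · exact ⟨W2, fun f hf => h hf, fun f hf => hf⟩
    · intro s
      rw [key s]
      obtain ⟨W⟩ := hcne'
      exact ((hsys W).cpt s).of_isClosed_subset (isClosed_iInter fun W => hclosed s W)
        (Set.iInter_subset _ W)
    · intro s
      rw [key s]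
      exact convex_iInter fun W => (hsys W).cvx s
    · intro s t hst
      rw [key s, key t]
      exact Set.iInter_mono fun W => (hsys W).mono s t hst) _ hW0
  refine ⟨fun s => {f | (s, f) ∈ m}, hmin.prop, fun s f hf => hm hf, ?_⟩
  intro K' hK' hle s f hf
  have h1 : {q : List Bool × WeakDual ℝ X | q.2 ∈ K' q.1} ∈ S := hK'
  have h2 : {q : List Bool × WeakDual ℝ X | q.2 ∈ K' q.1} ≤ m := fun q hq => hle q.1 hq
  exact hmin.le_of_le h1 h2 hf

theorem slice (K : List Bool → Set (WeakDual ℝ X)) (hK : IsSys K)
    (hmin : ∀ K' : List Bool → Set (WeakDual ℝ X), IsSys K' → (∀ s, K' s ⊆ K s) →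
      ∀ s, K s ⊆ K' s)
    (s : List Bool) (x : X) (b : WeakDual ℝ X) (hb : b ∈ K s) (t : ℝ) (ht : t < b x) :
    ∃ s', s <+: s' ∧ ∀ b' ∈ K s', t < b' x := by
  classical
  by_contra hcon
  push Not at hcon
  have hcl : IsClosed {f : WeakDual ℝ X | f x ≤ t} :=
    isClosed_le (WeakDual.eval_continuous x) continuous_const
  have hcv : Convex ℝ {f : WeakDual ℝ X | f x ≤ t} := by
    intro f hf g hg a b ha hb hab
    simp only [Set.mem_ofPred_eq] at hf hg ⊢
    have : (a • f + b • g) x = a * f x + b * g x := rfl
    rw [this]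
    calc a * f x + b * g x ≤ a * t + b * t := by gcongr
      _ = t := by rw [← add_mul, hab, one_mul]
  let K' : List Bool → Set (WeakDual ℝ X) := fun s' =>
    if s <+: s' then K s' ∩ {f | f x ≤ t} else K s'
  have hK' : IsSys K' := by
    refine ⟨?_, ?_, ?_, ?_⟩
    · intro s'
      by_cases h : s <+: s'
      · obtain ⟨b', hb', hb't⟩ := hcon s' h
        simp only [K', h, if_true]
        exact ⟨b', hb', hb't⟩
      · simp only [K', h, if_false]
        exact hK.ne s'
    · intro s'
      by_cases h : s <+: s'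
      · simp only [K', h, if_true]
        exact (hK.cpt s').inter_right hcl
      · simp only [K', h, if_false]
        exact hK.cpt s'
    · intro s'
      by_cases h : s <+: s'
      · simp only [K', h, if_true]
        exact (hK.cvx s').inter hcv
      · simp only [K', h, if_false]
        exact hK.cvx s'
    · intro s' t' hst
      by_cases h : s <+: s'
      · have h2 : s <+: t' := h.trans hst
        simp only [K', h, h2, if_true]
        exact Set.inter_subset_inter_left _ (hK.mono _ _ hst)
      · by_cases h2 : s <+: t'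
        · simp only [K', h, h2, if_true, if_false]
          exact Set.inter_subset_left.trans (hK.mono _ _ hst)
        · simp only [K', h, h2, if_false]
          exact hK.mono _ _ hst
  have hle : ∀ s', K' s' ⊆ K s' := by
    intro s'
    by_cases h : s <+: s'
    · simp only [K', h, if_true]
      exact Set.inter_subset_left
    · simp only [K', h, if_false]
      exact subset_rfl
  have := hmin K' hK' hle s hb
  simp only [K', List.prefix_rfl, if_true] at this
  exact absurd this.2 (not_le.mpr ht)

end Pool.Agent.W_MP_d6e406_an
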